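import Pool.Agent.helper56.P3.ClFinal

/-!
# MP_ec0848_ag: Milnor's example is the only non-trivial common component

`PerStar n lam` is the curve `Per*_n(lam)` and `PerCurve n lam` is the curve `Per_n(lam)` in the
moduli space `M2` of quadratic rational maps; both are defined as Zariski closures, see
`Pool.Agent.helper56.P3.PerDefs`.

* If two of the curves `Per*_n(lam)`, `Per*_m(lam')` with `(n, lam) ≠ (m, lam')` have infinitely many
  points in common (which is the case if they share an irreducible component) then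
  `{(n, lam), (m, lam')} = {(2, -3), (3, 1)}`.
* In all other cases the intersection of `Per_n(lam)` and `Per_m(lam')` is finite, apart from
  the trivial common components: the curves `Per*_k(mu)` for the pairs `(k, mu)` that are
  pieces of both `(n, lam)` and `(m, lam')`.
-/

namespace Pool.Agent.Results.MP_ec0848_ag.OnlyMilnorExample

open Pool.Agent.helper56.Per

theorem result :
    (∀ (n m : ℕ) (lam lam' : ℂ), (n, lam) ≠ (m, lam') →
      (PerStar n lam ∩ PerStar m lam').Infinite →
        (n = 2 ∧ lam = -3 ∧ m = 3 ∧ lam' = 1) ∨ (n = 3 ∧ lam = 1 ∧ m = 2 ∧ lam' = -3)) ∧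
    (∀ (n m : ℕ) (lam lam' : ℂ),
      ¬ ((n = 2 ∧ lam = -3 ∧ m = 3 ∧ lam' = 1) ∨ (n = 3 ∧ lam = 1 ∧ m = 2 ∧ lam' = -3)) →
        ((PerCurve n lam ∩ PerCurve m lam') \
          {c | ∃ k mu, Piece n lam k mu ∧ Piece m lam' k mu ∧ c ∈ PerStar k mu}).Finite) := by
  refine ⟨fun n m lam lam' hne h => Pool.Agent.helper56.P3.final_closure hne h, fun n m lam lam' hne => ?_⟩
  by_contra h
  exact hne (Pool.Agent.helper56.P3.final_formal h)

end Pool.Agent.Results.MP_ec0848_ag.OnlyMilnorExample
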